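import Mathlib
import Pool.Agent.H.MP_ceba03_an.A

namespace Pool.Agent.H.MP_535799_an
open MeasureTheory AddCircle Pool.Agent.H.MP_ceba03_an Filter Topology

noncomputable def tp (F : Finset ℤ) (c : ℤ → ℂ) : C(T, ℂ) := ∑ m ∈ F, c m • fourier m

lemma co_tp (F : Finset ℤ) (c : ℤ → ℂ) (n : ℤ) :
    co n (toL (tp F c)) = if n ∈ F then c n else 0 := by
  simp only [tp, map_sum, map_smul, co_fourier, smul_eq_mul, mul_ite, mul_one, mul_zero,
    Finset.sum_ite_eq]

lemma parseval (u : C(T, ℂ)) : HasSum (fun m => ‖co m (toL u)‖ ^ 2) (∫ x, ‖u x‖ ^ 2 ∂μ) := by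
  have h := hasSum_sq_fourierCoeff (ContinuousMap.toLp 2 μ ℂ u)
  have e : ContinuousMap.toLp 2 μ ℂ u =ᵐ[μ] u := ContinuousMap.coeFn_toLp μ u
  rw [fourierCoeff_congr_ae e, integral_congr_ae (g := fun x => ‖u x‖ ^ 2)
    (by filter_upwards [e] with x hx; rw [hx])] at h
  simpa only [co_toL] using h

lemma tp_sq (F : Finset ℤ) (c : ℤ → ℂ) : ∫ x, ‖tp F c x‖ ^ 2 ∂μ = ∑ m ∈ F, ‖c m‖ ^ 2 := by
  refine (parseval _).unique ?_
  have : ∑ m ∈ F, ‖c m‖ ^ 2 = ∑ m ∈ F, ‖co m (toL (tp F c))‖ ^ 2 :=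
    Finset.sum_congr rfl fun m hm => by rw [co_tp, if_pos hm]
  rw [this]
  exact hasSum_sum_of_ne_finset_zero fun m hm => by rw [co_tp, if_neg hm]; simp

lemma zs (u : C(T, ℂ)) : (0 : ℂ) • u = 0 := by ext; simp

lemma repr (u : C(T, ℂ)) (F : Finset ℤ) (h : ∀ m ∉ F, co m (toL u) = 0) :
    u = tp F fun m => co m (toL u) := by
  simp only [co_toL] at h ⊢
  exact (hasSum_fourier_series_of_summable (summable_of_ne_finset_zero h)).unique
    (hasSum_sum_of_ne_finset_zero fun m hm => by rw [h m hm]; exact zs _)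

lemma cint (u : C(T, ℝ)) : Integrable u μ :=
  u.continuous.integrable_of_hasCompactSupport (HasCompactSupport.of_compactSpace _)

lemma cint' {u : T → ℝ} (h : Continuous u) : Integrable u μ := cint ⟨u, h⟩

noncomputable def fe (N : ℕ) : C(T, ℂ) :=
  ∑ p ∈ Finset.range (N + 1) ×ˢ Finset.range (N + 1), (1 / (N + 1) : ℂ) • fourier (p.1 - p.2)

noncomputable def w (N : ℕ) (m : ℤ) : ℂ := co m (toL (fe N))

lemma w_eq (N : ℕ) (m : ℤ) : w N m = (((Finset.range (N + 1) ×ˢ Finset.range (N + 1)).filter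
    fun p => m = p.1 - p.2).card : ℂ) / (N + 1) := by
  simp only [w, fe, map_sum, map_smul, co_fourier, smul_eq_mul, ← Finset.mul_sum]
  rw [Finset.sum_boole]; ring

lemma w_near (N : ℕ) (m : ℤ) : ‖w N m - 1‖ ≤ |m| / (N + 1) := by
  obtain ⟨k, hk⟩ : ∃ k, k = ((Finset.range (N + 1) ×ˢ Finset.range (N + 1)).filter
    fun p => m = p.1 - p.2).card := ⟨_, rfl⟩
  have h1 : k ≤ N + 1 := by
    rw [hk]
    refine (Finset.card_le_card_of_injOn (t := Finset.range (N + 1)) Prod.fst ?_ ?_).trans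
      (by simp)
    · intro p hp
      simp only [Finset.coe_filter, Finset.mem_product, Set.mem_ofPred_eq] at hp
      exact hp.1.1
    · intro p hp q hq h
      simp only [Finset.coe_filter, Finset.mem_product, Set.mem_ofPred_eq] at hp hq
      ext <;> omega
  have h2 : N + 1 - m.natAbs ≤ k := by
    rw [hk]
    refine le_trans (by simp) (Finset.card_le_card_of_injOn (s := Finset.range (N + 1 - m.natAbs))
      (fun j => (j + m.toNat, j + (-m).toNat)) ?_ ?_)
    · intro j hj
      simp only [Finset.coe_filter, Finset.mem_product, Set.mem_ofPred_eq, Finset.coe_range,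
        Set.mem_Iio, Finset.mem_range] at hj ⊢
      omega
    · intro p _ q _ h
      simp only [Prod.mk.injEq] at h
      omega
  rw [w_eq, ← hk]
  have e : (k : ℂ) / (N + 1) - 1 = (((k : ℝ) - (N + 1)) / (N + 1) : ℝ) := by
    have : (N + 1 : ℂ) ≠ 0 := by exact_mod_cast Nat.succ_ne_zero N
    push_cast; field_simp
  rw [e, Complex.norm_real, Real.norm_eq_abs, abs_div, abs_of_pos (by positivity : (0 : ℝ) < N + 1)]
  gcongr
  have h3 : (k : ℤ) ≤ N + 1 := by omega
  have h4 : (N : ℤ) + 1 - |m| ≤ k := by rw [← Int.natCast_natAbs]; omega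
  have h3' : (k : ℝ) ≤ N + 1 := by exact_mod_cast h3
  have h4' : (N : ℝ) + 1 - |(m : ℝ)| ≤ k := by exact_mod_cast h4
  rw [abs_le]
  push_cast
  constructor <;> linarith [abs_nonneg (m : ℝ)]

lemma w_zero (N : ℕ) (m : ℤ) (h : m ∉ Finset.Icc (-(N : ℤ)) N) : w N m = 0 := by
  rw [w_eq, Finset.filter_eq_empty_iff.2, Finset.card_empty, Nat.cast_zero, zero_div]
  intro p hp
  simp only [Finset.mem_product, Finset.mem_range, Finset.mem_Icc] at hp h
  omega

lemma fe_norm (N : ℕ) : ∫ x, ‖fe N x‖ ∂μ = 1 := by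
  have h0 : w N 0 = 1 := by simpa [sub_eq_zero] using w_near N 0
  rw [w, co_toL, fourierCoeff] at h0
  apply Complex.ofReal_injective
  rw [← integral_complex_ofReal, Complex.ofReal_one, ← h0]
  congr 1
  funext x
  have : fe N x = ((1 / (N + 1) * ‖∑ j ∈ Finset.range (N + 1), fourier j x‖ ^ 2 : ℝ) : ℂ) := by
    push_cast
    rw [← Complex.mul_conj', map_sum, Finset.sum_mul_sum, fe, ContinuousMap.sum_apply,
      Finset.sum_product, Finset.mul_sum]
    refine Finset.sum_congr rfl fun j _ => ?_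
    rw [Finset.mul_sum]
    refine Finset.sum_congr rfl fun k _ => ?_
    rw [sub_eq_add_neg, ContinuousMap.smul_apply, fourier_add, fourier_neg, smul_eq_mul]
  rw [this, Complex.norm_real, Real.norm_of_nonneg (by positivity)]
  simp

lemma w_le (N : ℕ) (m : ℤ) : ‖w N m‖ ≤ 1 := by
  rw [← fe_norm N, ← norm_toL]; exact co_le _ _

noncomputable def σ (N : ℕ) : L1 →L[ℂ] L1 :=
  ∑ m ∈ Finset.Icc (-(N : ℤ)) N, w N m • (co m).smulRight (toL (fourier m))

lemma σ_apply (N : ℕ) (h : L1) :
    σ N h = toL (tp (Finset.Icc (-(N : ℤ)) N) fun m => w N m * co m h) := by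
  simp only [σ, tp, map_sum, map_smul, _root_.sum_apply, _root_.smul_apply,
    ContinuousLinearMap.smulRight_apply, smul_smul]

lemma four_sub (n : ℤ) (x t : T) : fourier n (x - t) = fourier n x * fourier (-n) t := by
  simp only [fourier_apply]
  rw [← Circle.coe_mul, ← toCircle_add, neg_smul, smul_sub, sub_eq_add_neg]

lemma σ_le (N : ℕ) (h : L1) : ‖σ N h‖ ≤ ‖h‖ := by
  have hh := L1.integrable_coeFn h
  have hk : Integrable (fun x => ‖fe N x‖) μ := cint' (by fun_prop)
  have e := integral_convolution (ContinuousLinearMap.mul ℝ ℝ) hh.norm hk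
  rw [ContinuousLinearMap.mul_apply', fe_norm, mul_one] at e
  rw [σ_apply, norm_toL, L1.norm_eq_integral_norm, ← e]
  refine integral_mono (cint' (by fun_prop)) (hh.norm.integrable_convolution _ hk) fun x => ?_
  have : tp (Finset.Icc (-(N : ℤ)) N) (fun m => w N m * co m h) x =
      ∫ t, h t * fe N (x - t) ∂μ := by
    rw [repr (fe N) (Finset.Icc (-(N : ℤ)) N) (w_zero N)]
    simp only [tp, ContinuousMap.sum_apply, ContinuousMap.smul_apply, smul_eq_mul, four_sub,
      Finset.mul_sum]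
    rw [integral_finsetSum]
    · refine Finset.sum_congr rfl fun m _ => ?_
      rw [co_eq, fourierCoeff, mul_right_comm, ← integral_const_mul]
      congr 1
      funext t
      simp only [w, smul_eq_mul]; ring
    · intro m _
      refine ((int_mul h (fourier (-m))).const_mul (w N m * fourier m x)).congr ?_
      filter_upwards with t
      simp only [w]; ring
  simp only [this, convolution_def, ContinuousLinearMap.mul_apply', ← norm_mul]
  exact norm_integral_le_integral_norm _

lemma σ_tendsto (h : L1) : Tendsto (fun N => σ N h) atTop (𝓝 h) := by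
  have key : ∀ p ∈ Submodule.span ℂ (Set.range (@fourierLp 1 _ 1 _)),
      Tendsto (fun N => σ N p) atTop (𝓝 p) := by
    intro p hp
    induction hp using Submodule.span_induction with
    | mem x hx =>
      obtain ⟨k, rfl⟩ := hx
      have e : ∀ N, σ N (toL (fourier k)) = w N k • toL (fourier k) := by
        intro N
        simp only [σ_apply, co_fourier, tp, mul_ite, mul_one, mul_zero, ite_smul, zs,
          Finset.sum_ite_eq']
        split_ifs with hk
        · rw [map_smul]
        · rw [w_zero N k hk, zero_smul, map_zero]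
      have t : Tendsto (fun N => w N k) atTop (𝓝 1) := by
        rw [tendsto_iff_norm_sub_tendsto_zero]
        refine squeeze_zero (fun _ => norm_nonneg _) (fun N => w_near N k) ?_
        simpa [div_eq_mul_inv] using
          (tendsto_one_div_add_atTop_nhds_zero_nat (𝕜 := ℝ)).const_mul (|k| : ℝ)
      have := t.smul_const (toL (fourier k))
      rw [one_smul] at this
      exact this.congr fun N => (e N).symm
    | zero => simp
    | add x y _ _ hx hy => simpa only [map_add] using hx.add hy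
    | smul c x _ hx => simpa only [map_smul] using hx.const_smul c
  have h1 : h ∈ (Submodule.span ℂ (Set.range (@fourierLp 1 _ 1 _))).topologicalClosure := by
    rw [span_fourierLp_closure_eq_top (by simp)]; trivial
  rw [Metric.tendsto_atTop]
  intro ε hε
  obtain ⟨p, hp, hd⟩ := Metric.mem_closure_iff.1 h1 (ε / 3) (by positivity)
  obtain ⟨N, hN⟩ := Metric.tendsto_atTop.1 (key p hp) (ε / 3) (by positivity)
  refine ⟨N, fun n hn => ?_⟩
  have a1 := hN n hn
  have a2 := σ_le n (h - p)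
  rw [map_sub, ← dist_eq_norm, ← dist_eq_norm] at a2
  linarith [dist_triangle4 (σ n h) (σ n p) p h, dist_comm p h]

lemma norm_le_l2 (h : L1) {B : ℝ} (hB : 0 < B)
    (H : ∀ F : Finset ℤ, ∑ n ∈ F, ‖co n h‖ ^ 2 ≤ B ^ 2) : ‖h‖ ≤ B := by
  refine le_of_tendsto' (σ_tendsto h).norm fun N => ?_
  rw [σ_apply, norm_toL]
  obtain ⟨u, hu⟩ : ∃ u, u = tp (Finset.Icc (-(N : ℤ)) N) fun m => w N m * co m h := ⟨_, rfl⟩
  have e : ∫ x, ‖u x‖ ^ 2 ∂μ ≤ B ^ 2 := by
    rw [hu, tp_sq]
    refine le_trans (Finset.sum_le_sum fun m _ => ?_) (H _)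
    rw [norm_mul]
    gcongr
    exact mul_le_of_le_one_left (norm_nonneg _) (w_le N m)
  rw [← hu]
  calc ∫ x, ‖u x‖ ∂μ ≤ ∫ x, (1 / (2 * B) * ‖u x‖ ^ 2 + B / 2) ∂μ := by
        refine integral_mono (cint' (by fun_prop)) (cint' (by fun_prop)) fun x => ?_
        have : 1 / (2 * B) * ‖u x‖ ^ 2 + B / 2 - ‖u x‖ = (‖u x‖ - B) ^ 2 / (2 * B) := by
          field_simp; ring
        have : 0 ≤ (‖u x‖ - B) ^ 2 / (2 * B) := by positivity
        linarith
    _ = 1 / (2 * B) * ∫ x, ‖u x‖ ^ 2 ∂μ + B / 2 := by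
        rw [integral_add (cint' (by fun_prop)) (integrable_const _), integral_const_mul]
        simp
    _ ≤ 1 / (2 * B) * B ^ 2 + B / 2 := by gcongr
    _ = B := by field_simp; ring

lemma uniq (h g : L1) (H : ∀ n, co n h = co n g) : h = g := by
  rw [← sub_eq_zero, ← norm_le_zero_iff]
  refine le_of_forall_pos_le_add fun B hB => ?_
  rw [zero_add]
  refine norm_le_l2 _ hB fun F => ?_
  simp [H, sq_nonneg]

end Pool.Agent.H.MP_535799_an
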