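import Mathlib
import Pool.Agent.H.MP_535799_an.A

namespace Pool.Agent.H.MP_535799_an
open MeasureTheory AddCircle Pool.Agent.H.MP_ceba03_an Filter Topology

def QQ : Set ℤ := {m | ∃ i j : ℕ, m = 9 ^ i + 9 ^ j}

lemma digits (n : ℕ) : ∀ v : ℕ → ℤ, (∀ i, |v i| ≤ 4) →
    ∑ i ∈ Finset.range n, v i * 9 ^ i = 0 → ∀ i < n, v i = 0 := by
  induction n with
  | zero => intro v _ _ i hi; omega
  | succ n ih =>
    intro v hv h i hi
    rw [Finset.sum_range_succ'] at h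
    have e : ∑ k ∈ Finset.range n, v (k + 1) * 9 ^ (k + 1) =
        9 * ∑ k ∈ Finset.range n, v (k + 1) * 9 ^ k := by
      rw [Finset.mul_sum]; exact Finset.sum_congr rfl fun k _ => by ring
    rw [e] at h
    have h0 := abs_le.1 (hv 0)
    have h1 : v 0 = 0 := by omega
    rcases i with _ | i
    · exact h1
    · exact ih (fun k => v (k + 1)) (fun k => hv _) (by omega) i (by omega)

lemma four (a b c d a' b' c' d' : ℕ)
    (h : (9 : ℤ) ^ a + 9 ^ b + 9 ^ c + 9 ^ d = 9 ^ a' + 9 ^ b' + 9 ^ c' + 9 ^ d') :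
    a' ∈ ({a, b, c, d} : Finset ℕ) := by
  have bb : ∀ x y : ℕ, (0 : ℤ) ≤ (if x = y then 1 else 0) ∧ (if x = y then 1 else 0 : ℤ) ≤ 1 :=
    fun x y => by split_ifs <;> simp
  have key := digits (a + b + c + d + a' + b' + c' + d' + 1)
    (fun t => (if t = a then 1 else 0) + (if t = b then 1 else 0) + (if t = c then 1 else 0) +
      (if t = d then 1 else 0) - (if t = a' then 1 else 0) - (if t = b' then 1 else 0) -
      (if t = c' then 1 else 0) - (if t = d' then 1 else 0))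
    (fun t => by
      rw [abs_le]
      constructor <;> linarith [bb t a, bb t b, bb t c, bb t d, bb t a', bb t b', bb t c', bb t d'])
    (by
      simp only [add_mul, sub_mul, Finset.sum_add_distrib, Finset.sum_sub_distrib, ite_mul,
        one_mul, zero_mul, Finset.sum_ite_eq', Finset.mem_range]
      rw [if_pos, if_pos, if_pos, if_pos, if_pos, if_pos, if_pos, if_pos] <;> omega)
    a' (by omega)
  by_contra hn
  simp only [Finset.mem_insert, Finset.mem_singleton, not_or] at hn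
  simp only [hn, if_true, if_false] at key
  linarith [bb a' b', bb a' c', bb a' d']

lemma reps (F : Finset ℤ) (hF : ↑F ⊆ QQ) (m : ℤ) :
    ((F ×ˢ F).filter fun p => m = p.1 + p.2).card ≤ 256 := by
  rcases ((F ×ˢ F).filter fun p => m = p.1 + p.2).eq_empty_or_nonempty with h | ⟨p, hp⟩
  · simp [h]
  simp only [Finset.mem_filter, Finset.mem_product] at hp
  obtain ⟨a, b, h1⟩ := hF hp.1.1
  obtain ⟨c, d, h2⟩ := hF hp.1.2
  obtain ⟨S, hS⟩ : ∃ S : Finset ℕ, S = {a, b, c, d} := ⟨_, rfl⟩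
  have hc : S.card ≤ 4 := hS ▸ Finset.card_le_four
  have : ((F ×ˢ F).filter fun p => m = p.1 + p.2) ⊆ ((S ×ˢ S) ×ˢ (S ×ˢ S)).image
      fun q => ((9 : ℤ) ^ q.1.1 + 9 ^ q.1.2, (9 : ℤ) ^ q.2.1 + 9 ^ q.2.2) := by
    intro q hq
    simp only [Finset.mem_filter, Finset.mem_product] at hq
    obtain ⟨a', b', k1⟩ := hF hq.1.1
    obtain ⟨c', d', k2⟩ := hF hq.1.2
    refine Finset.mem_image.2 ⟨((a', b'), (c', d')), ?_, Prod.ext k1.symm k2.symm⟩
    simp only [Finset.mem_product, hS]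
    exact ⟨⟨four a b c d a' b' c' d' (by linarith [hp.2, hq.2]),
      four a b c d b' a' c' d' (by linarith [hp.2, hq.2])⟩,
      four a b c d c' b' a' d' (by linarith [hp.2, hq.2]),
      four a b c d d' b' c' a' (by linarith [hp.2, hq.2])⟩
  refine (Finset.card_le_card this).trans (Finset.card_image_le.trans ?_)
  simp only [Finset.card_product]
  calc _ ≤ 4 * 4 * (4 * 4) := by gcongr
    _ = 256 := by norm_num

lemma l4 (F : Finset ℤ) (hF : ↑F ⊆ QQ) (c : ℤ → ℂ) :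
    ∫ x, ‖tp F c x‖ ^ 4 ∂μ ≤ 256 * (∑ m ∈ F, ‖c m‖ ^ 2) ^ 2 := by
  have h1 := parseval (tp F c * tp F c)
  have e1 : ∫ x, ‖(tp F c * tp F c) x‖ ^ 2 ∂μ = ∫ x, ‖tp F c x‖ ^ 4 ∂μ := by
    congr 1; funext x; rw [ContinuousMap.mul_apply, norm_mul]; ring
  rw [e1] at h1
  have h2 : HasSum (fun m : ℤ => 256 * ∑ p ∈ F ×ˢ F,
      if m = p.1 + p.2 then ‖c p.1‖ ^ 2 * ‖c p.2‖ ^ 2 else 0)
      (256 * ∑ p ∈ F ×ˢ F, ‖c p.1‖ ^ 2 * ‖c p.2‖ ^ 2) :=
    (hasSum_sum fun p _ => hasSum_ite_eq (p.1 + p.2) _).mul_left _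
  have e3 : (∑ m ∈ F, ‖c m‖ ^ 2) ^ 2 = ∑ p ∈ F ×ˢ F, ‖c p.1‖ ^ 2 * ‖c p.2‖ ^ 2 := by
    rw [sq (∑ m ∈ F, ‖c m‖ ^ 2), Finset.sum_mul_sum, Finset.sum_product]
  rw [e3]
  refine hasSum_le (fun m => ?_) h1 h2
  have e2 : tp F c * tp F c = ∑ p ∈ F ×ˢ F, (c p.1 * c p.2) • fourier (p.1 + p.2) := by
    rw [tp, Finset.sum_mul_sum, Finset.sum_product]
    refine Finset.sum_congr rfl fun i _ => Finset.sum_congr rfl fun j _ => ?_
    ext x
    simp only [ContinuousMap.mul_apply, ContinuousMap.smul_apply, fourier_add, smul_eq_mul]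
    ring
  simp only [e2, map_sum, map_smul, co_fourier, smul_eq_mul, mul_ite, mul_one, mul_zero,
    ← Finset.sum_filter]
  calc _ ≤ (∑ p ∈ (F ×ˢ F).filter fun p => m = p.1 + p.2, ‖c p.1 * c p.2‖) ^ 2 := by
        gcongr; exact norm_sum_le _ _
    _ ≤ _ := sq_sum_le_card_mul_sum_sq
    _ ≤ _ := by
        simp only [norm_mul, mul_pow]
        gcongr
        exact_mod_cast reps F hF m

lemma lam (F : Finset ℤ) (hF : ↑F ⊆ QQ) (c : ℤ → ℂ) :
    ∫ x, ‖tp F c x‖ ^ 2 ∂μ ≤ 2048 * ‖toL (tp F c)‖ ^ 2 := by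
  have h4 := l4 F hF c
  rw [← tp_sq] at h4
  rw [norm_toL]
  obtain ⟨u, hu⟩ : ∃ u, u = tp F c := ⟨_, rfl⟩
  rw [← hu] at h4 ⊢
  obtain ⟨E, hE⟩ : ∃ E, E = ∫ x, ‖u x‖ ^ 2 ∂μ := ⟨_, rfl⟩
  have hE0 : 0 ≤ E := hE ▸ integral_nonneg fun _ => by positivity
  rw [← hE] at h4 ⊢
  rcases hE0.eq_or_lt with h | h
  · rw [← h]; positivity
  obtain ⟨l, hl⟩ : ∃ l, l = Real.sqrt (512 * E) := ⟨_, rfl⟩
  have hl0 : 0 < l := hl ▸ Real.sqrt_pos.2 (by positivity)
  have hl2 : l ^ 2 = 512 * E := hl ▸ Real.sq_sqrt (by positivity)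
  have h1 : E ≤ l * ∫ x, ‖u x‖ ∂μ + 1 / l ^ 2 * ∫ x, ‖u x‖ ^ 4 ∂μ := by
    rw [hE, ← integral_const_mul, ← integral_const_mul,
      ← integral_add (cint' (by fun_prop)) (cint' (by fun_prop))]
    refine integral_mono (cint' (by fun_prop)) (cint' (by fun_prop)) fun x => ?_
    have := norm_nonneg (u x)
    show ‖u x‖ ^ 2 ≤ l * ‖u x‖ + 1 / l ^ 2 * ‖u x‖ ^ 4
    rcases le_total ‖u x‖ l with h' | h'
    · have : 0 ≤ 1 / l ^ 2 * ‖u x‖ ^ 4 := by positivity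
      nlinarith
    · have h3 : ‖u x‖ ^ 2 ≤ 1 / l ^ 2 * ‖u x‖ ^ 4 := by
        rw [one_div, inv_mul_eq_div, le_div_iff₀ (by positivity)]
        have : l ^ 2 ≤ ‖u x‖ ^ 2 := by gcongr
        nlinarith [sq_nonneg ‖u x‖]
      nlinarith [mul_nonneg hl0.le this]
  have h2 : 1 / l ^ 2 * ∫ x, ‖u x‖ ^ 4 ∂μ ≤ E / 2 := by
    rw [hl2, one_div, inv_mul_le_iff₀ (by positivity)]
    linarith
  obtain ⟨I, hI⟩ : ∃ I, I = ∫ x, ‖u x‖ ∂μ := ⟨_, rfl⟩
  rw [← hI] at h1 ⊢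
  have h3 : (E / 2) ^ 2 ≤ (l * I) ^ 2 := by gcongr; linarith
  rw [mul_pow, hl2] at h3
  nlinarith

lemma l2_bound (f : L1) (hf : ∀ n ∉ QQ, co n f = 0) (F : Finset ℤ) :
    ∑ n ∈ F, ‖co n f‖ ^ 2 ≤ 2048 * ‖f‖ ^ 2 := by
  classical
  have t : Tendsto (fun N => ∑ n ∈ F, ‖co n (σ N f)‖ ^ 2) atTop (𝓝 (∑ n ∈ F, ‖co n f‖ ^ 2)) :=
    tendsto_finsetSum _ fun n _ =>
      ((((co n).continuous.tendsto f).comp (σ_tendsto f)).norm.pow 2)
  refine le_of_tendsto' t fun N => ?_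
  have e : σ N f = toL (tp ((Finset.Icc (-(N : ℤ)) N).filter (· ∈ QQ))
      fun m => w N m * co m f) := by
    rw [σ_apply, tp, tp, Finset.sum_filter_of_ne]
    intro m _ h
    by_contra hm
    rw [hf m hm, mul_zero] at h
    exact h (zs _)
  have h1 := lam ((Finset.Icc (-(N : ℤ)) N).filter (· ∈ QQ))
    (fun m hm => (Finset.mem_filter.1 hm).2) fun m => w N m * co m f
  have h2 := sum_le_hasSum F (fun _ _ => sq_nonneg _) (parseval
    (tp ((Finset.Icc (-(N : ℤ)) N).filter (· ∈ QQ)) fun m => w N m * co m f))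
  rw [← e] at h1 h2
  have h3 : ‖σ N f‖ ^ 2 ≤ ‖f‖ ^ 2 := by gcongr; exact σ_le N f
  linarith

lemma dft (n : ℕ) [NeZero n] (u v : ZMod n → ℂ) (hu : ∀ i, ‖u i‖ = 1) (hv : ∀ i, ‖v i‖ = 1) :
    ‖∑ p : ZMod n × ZMod n, ZMod.stdAddChar (p.1 * p.2) * (u p.1 * v p.2)‖ ^ 2 ≤ n ^ 3 := by
  obtain ⟨y, hy⟩ : ∃ y : ZMod n → ℂ, y = fun j => ∑ i, ZMod.stdAddChar (i * j) * u i := ⟨_, rfl⟩
  have e1 : ∑ p : ZMod n × ZMod n, ZMod.stdAddChar (p.1 * p.2) * (u p.1 * v p.2) =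
      ∑ j, y j * v j := by
    rw [Fintype.sum_prod_type_right, hy]
    refine Finset.sum_congr rfl fun j _ => ?_
    rw [Finset.sum_mul]
    exact Finset.sum_congr rfl fun i _ => by ring
  have e2 : ∑ j, ‖y j‖ ^ 2 = n ^ 2 := by
    apply Complex.ofReal_injective
    push_cast
    have : ∀ j, (‖y j‖ : ℂ) ^ 2 = ∑ i, ∑ k, u i * (starRingEnd ℂ) (u k) *
        ZMod.stdAddChar (j * (i - k)) := by
      intro j
      rw [← Complex.mul_conj', hy, map_sum, Finset.sum_mul_sum]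
      refine Finset.sum_congr rfl fun i _ => Finset.sum_congr rfl fun k _ => ?_
      rw [map_mul (starRingEnd ℂ), ← AddChar.map_neg_eq_conj, show j * (i - k) = i * j + -(k * j) by ring,
        AddChar.map_add_eq_mul]
      ring
    simp only [this]
    rw [Finset.sum_comm]
    have h2 : ∀ i, ∑ j : ZMod n, ∑ k, u i * (starRingEnd ℂ) (u k) *
        ZMod.stdAddChar (j * (i - k)) = n := by
      intro i
      rw [Finset.sum_comm]
      simp only [← Finset.mul_sum, AddChar.sum_mulShift _ (ZMod.isPrimitive_stdAddChar n),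
        sub_eq_zero, Nat.cast_ite, mul_ite, Nat.cast_zero, mul_zero, Finset.sum_ite_eq,
        Finset.mem_univ, if_true, Complex.mul_conj', hu, ZMod.card]
      simp
    simp only [h2, Finset.sum_const, Finset.card_univ, ZMod.card, nsmul_eq_mul]
    ring
  rw [e1]
  calc _ ≤ (∑ j, ‖y j‖) ^ 2 := by
        gcongr
        exact norm_sum_le_of_le _ fun j _ => by rw [norm_mul, hv, mul_one]
    _ ≤ _ := sq_sum_le_card_mul_sum_sq
    _ = _ := by rw [e2, Finset.card_univ, ZMod.card]; ring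

theorem not_sidon : ¬ ∃ C : ℝ, ∀ (F : Finset ℤ) (a : ℤ → ℂ), ↑F ⊆ QQ →
    ∑ n ∈ F, ‖a n‖ ≤ C * ‖tp F a‖ := by
  rintro ⟨C, hC⟩
  obtain ⟨n, hn⟩ := exists_nat_gt (C ^ 2)
  have n0 : (0 : ℝ) < n := (sq_nonneg C).trans_lt hn
  have : NeZero n := ⟨by exact_mod_cast n0.ne'⟩
  let g : ZMod n × ZMod n → ℤ := fun p => 9 ^ p.1.val + 9 ^ (n + p.2.val)
  have hg : Function.Injective g := by
    rintro ⟨i, j⟩ ⟨k, l⟩ h
    simp only [g] at h
    have a1 := four i.val (n + j.val) i.val (n + j.val) k.val (n + l.val) k.val (n + l.val)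
      (by linarith)
    have a2 := four i.val (n + j.val) i.val (n + j.val) (n + l.val) k.val k.val (n + l.val)
      (by linarith)
    have := ZMod.val_lt i
    have := ZMod.val_lt k
    simp only [Finset.mem_insert, Finset.mem_singleton] at a1 a2
    exact Prod.ext (ZMod.val_injective n (by simp only; omega))
      (ZMod.val_injective n (by simp only; omega))
  have h1 := hC (Finset.univ.image g)
    (Function.extend g (fun p => ZMod.stdAddChar (p.1 * p.2)) 0) (by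
      intro m hm
      obtain ⟨p, -, rfl⟩ := Finset.mem_image.1 hm
      exact ⟨_, _, rfl⟩)
  rw [tp, Finset.sum_image hg.injOn, Finset.sum_image hg.injOn] at h1
  simp only [hg.extend_apply, AddChar.norm_apply, Finset.sum_const, Finset.card_univ,
    Fintype.card_prod, ZMod.card, nsmul_eq_mul, mul_one] at h1
  obtain ⟨u, hu⟩ : ∃ u : C(T, ℂ), u = ∑ p : ZMod n × ZMod n,
    (ZMod.stdAddChar (p.1 * p.2) : ℂ) • fourier (g p) := ⟨_, rfl⟩
  rw [← hu] at h1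
  have h2 : ‖u‖ ≤ Real.sqrt (n ^ 3) := by
    rw [ContinuousMap.norm_le _ (Real.sqrt_nonneg _)]
    intro x
    apply Real.le_sqrt_of_sq_le
    have := dft n (fun i => fourier (9 ^ i.val) x) (fun j => fourier (9 ^ (n + j.val)) x)
      (fun i => by simp [fourier_apply]) (fun i => by simp [fourier_apply])
    simpa only [hu, ContinuousMap.sum_apply, ContinuousMap.smul_apply, g, fourier_add,
      smul_eq_mul] using this
  have h3 : ‖u‖ ^ 2 ≤ n ^ 3 := by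
    rw [← Real.sq_sqrt (show (0 : ℝ) ≤ n ^ 3 by positivity)]; gcongr
  push_cast at h1
  have h4 : ((n : ℝ) * n) ^ 2 ≤ (C * ‖u‖) ^ 2 := by gcongr
  have h5 : (C * ‖u‖) ^ 2 ≤ C ^ 2 * n ^ 3 := by rw [mul_pow]; gcongr
  nlinarith [pow_pos n0 3]

end Pool.Agent.H.MP_535799_an
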