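import Mathlib
import Pool.Agent.H.MP_535799_an.B

namespace Pool.Agent.H.MP_535799_an
open MeasureTheory AddCircle Pool.Agent.H.MP_ceba03_an Filter Topology

lemma exists_conv' (f g : L1) : ∃ h : L1, (h =ᵐ[μ] fun x => ∫ t, f t * g (x - t) ∂μ) ∧
    ∀ n, co n h = co n f * co n g := by
  have hf := L1.integrable_coeFn f
  have hg := L1.integrable_coeFn g
  have hc := hf.integrable_convolution (ContinuousLinearMap.mul ℝ ℂ) hg
  refine ⟨hc.toL1 _, hc.coeFn_toL1, fun n => ?_⟩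
  rw [co_eq, fourierCoeff_congr_ae hc.coeFn_toL1]
  have := integral_convolution (ContinuousLinearMap.mul ℝ ℂ) (int_mul f (fourier (-n)))
    (int_mul g (fourier (-n)))
  rw [ContinuousLinearMap.mul_apply'] at this
  refine Eq.trans ?_ this
  rw [fourierCoeff]
  congr 1
  funext x
  rw [convolution_def, convolution_def, ← integral_smul]
  congr 1
  funext t
  have e : fourier (-n) x = fourier (-n) t * fourier (-n) (x - t) := by
    simp only [fourier_apply]
    rw [← Circle.coe_mul, ← toCircle_add, ← smul_add, add_sub_cancel]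
  simp only [ContinuousLinearMap.mul_apply', smul_eq_mul, e]
  ring

lemma fin_big (f : L1) {r : ℝ} (hr : 0 < r) : {n : ℤ | r ≤ ‖co n f‖}.Finite := by
  obtain ⟨N, hN⟩ := rl f hr
  refine (Set.finite_Icc (-(N : ℤ)) N).subset fun n hn => ?_
  by_contra h
  rw [Set.mem_Icc, ← abs_le, not_le] at h
  exact absurd (hN n h) (not_lt.2 hn)

lemma idem (A : Submodule ℂ L1) (hA : IsClosed (A : Set L1))
    (hc : ∀ f ∈ A, ∀ g ∈ A, ∃ h ∈ A, ∀ n, co n h = co n f * co n g) (f : L1) (hf : f ∈ A)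
    {B : ℝ} (hB : 0 < B) (H : ∀ F : Finset ℤ, ∑ n ∈ F, ‖co n f‖ ^ 2 ≤ B ^ 2) (l : ℂ)
    (hl : l ≠ 0) : ∃ e ∈ A, ∀ n, co n e = if co n f = l then 1 else 0 := by
  have l0 : 0 < ‖l‖ := norm_pos_iff.2 hl
  have mulM : ∀ (g : ℤ → ℂ) (a b : ℂ), (∃ h ∈ A, ∀ n, co n h = g n * co n f) →
      ∃ h ∈ A, ∀ n, co n h = (a * (co n f - b) * g n) * co n f := by
    rintro g a b ⟨h, hh, e⟩
    obtain ⟨k, hk, e'⟩ := hc h hh f hf
    refine ⟨a • (k - b • h), A.smul_mem _ (A.sub_mem hk (A.smul_mem _ hh)), fun n => ?_⟩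
    rw [map_smul, map_sub, map_smul, e', e, smul_eq_mul, smul_eq_mul]; ring
  have prodM : ∀ S : Finset ℂ, ∃ h ∈ A, ∀ n,
      co n h = (∏ z ∈ S, (l - z)⁻¹ * (co n f - z)) * co n f := by
    intro S
    induction S using Finset.induction_on with
    | empty => exact ⟨f, hf, by simp⟩
    | insert z S hz ih => simpa only [Finset.prod_insert hz] using mulM _ (l - z)⁻¹ z ih
  have hfin := fin_big f (half_pos l0)
  obtain ⟨S, hS⟩ : ∃ S : Finset ℂ, S = (hfin.toFinset.image fun n => co n f).erase l := ⟨_, rfl⟩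
  have powM : ∀ k : ℕ, ∃ h ∈ A, ∀ n,
      co n h = ((l⁻¹ * co n f) ^ k * ∏ z ∈ S, (l - z)⁻¹ * (co n f - z)) * co n f := by
    intro k
    induction k with
    | zero => simpa using prodM S
    | succ k ih =>
      obtain ⟨h, hh, e⟩ := mulM _ l⁻¹ 0 ih
      exact ⟨h, hh, fun n => by rw [e]; ring⟩
  choose h hh e using powM
  obtain ⟨E, hE⟩ : ∃ E : L1, E = toL (tp (hfin.toFinset.filter fun n => co n f = l) fun _ => 1) :=
    ⟨_, rfl⟩
  have cE : ∀ n, co n E = if co n f = l then 1 else 0 := by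
    intro n
    rw [hE, co_tp]
    refine if_congr ?_ rfl rfl
    simp only [Finset.mem_filter, Set.Finite.mem_toFinset, Set.mem_ofPred_eq, and_iff_right_iff_imp]
    intro h; rw [h]; linarith
  refine ⟨E, ?_, cE⟩
  obtain ⟨K, hK⟩ : ∃ K : ℝ, K = ‖l⁻¹‖ * ∏ z ∈ S, ‖(l - z)⁻¹‖ * (‖l‖ + ‖z‖) + 1 := ⟨_, rfl⟩
  have K0 : 0 < K := by rw [hK]; positivity
  have bd : ∀ k, ‖l⁻¹ • h k - E‖ ≤ K * B * (1 / 2) ^ k := by
    intro k
    refine norm_le_l2 _ (by positivity) fun F => ?_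
    have : ∀ n, ‖co n (l⁻¹ • h k - E)‖ ≤ K * (1 / 2) ^ k * ‖co n f‖ := by
      intro n
      rw [map_sub, map_smul, e, cE, smul_eq_mul]
      by_cases c1 : co n f = l
      · have : ∏ z ∈ S, (l - z)⁻¹ * (l - z) = 1 := Finset.prod_eq_one fun z hz =>
          inv_mul_cancel₀ (sub_ne_zero.2 (Finset.ne_of_mem_erase (hS ▸ hz)).symm)
        rw [if_pos c1, c1, this, inv_mul_cancel₀ hl]
        simp only [one_pow, one_mul, inv_mul_cancel₀ hl, sub_self, norm_zero]
        positivity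
      rw [if_neg c1, sub_zero]
      by_cases c2 : ‖l‖ / 2 ≤ ‖co n f‖
      · have : co n f ∈ S := by
          rw [hS]
          exact Finset.mem_erase.2 ⟨c1, Finset.mem_image.2 ⟨n, by simpa using c2, rfl⟩⟩
        rw [Finset.prod_eq_zero this (by simp)]
        simp only [mul_zero, zero_mul, norm_zero]
        positivity
      push Not at c2
      have a1 : ‖l⁻¹ * co n f‖ ≤ 1 / 2 := by
        rw [norm_mul, norm_inv, inv_mul_le_iff₀ l0]; linarith
      have a2 : ‖∏ z ∈ S, (l - z)⁻¹ * (co n f - z)‖ ≤ ∏ z ∈ S, ‖(l - z)⁻¹‖ * (‖l‖ + ‖z‖) := by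
        rw [norm_prod]
        refine Finset.prod_le_prod (fun _ _ => norm_nonneg _) fun z _ => ?_
        rw [norm_mul]
        gcongr
        exact (norm_sub_le _ _).trans (by linarith)
      rw [norm_mul, norm_mul, norm_mul, norm_pow]
      calc _ ≤ ‖l⁻¹‖ * ((1 / 2) ^ k * (∏ z ∈ S, ‖(l - z)⁻¹‖ * (‖l‖ + ‖z‖)) * ‖co n f‖) := by
            gcongr
        _ = (K - 1) * (1 / 2) ^ k * ‖co n f‖ := by rw [hK]; ring
        _ ≤ _ := by gcongr; linarith
    calc _ ≤ ∑ n ∈ F, (K * (1 / 2) ^ k * ‖co n f‖) ^ 2 :=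
          Finset.sum_le_sum fun n _ => by gcongr; exact this n
      _ = (K * (1 / 2) ^ k) ^ 2 * ∑ n ∈ F, ‖co n f‖ ^ 2 := by
          rw [Finset.mul_sum]; exact Finset.sum_congr rfl fun n _ => by ring
      _ ≤ (K * (1 / 2) ^ k) ^ 2 * B ^ 2 := by gcongr; exact H F
      _ = _ := by ring
  refine hA.mem_of_tendsto (f := fun k => l⁻¹ • h k) (b := atTop) ?_
    (Eventually.of_forall fun k => A.smul_mem _ (hh k))
  rw [tendsto_iff_norm_sub_tendsto_zero]
  refine squeeze_zero (fun _ => norm_nonneg _) bd ?_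
  simpa using (tendsto_pow_atTop_nhds_zero_of_lt_one (r := (1 / 2 : ℝ)) (by norm_num)
    (by norm_num)).const_mul (K * B)

theorem propP (A : Submodule ℂ L1) (hA : IsClosed (A : Set L1))
    (hc : ∀ f ∈ A, ∀ g ∈ A, ∀ h : L1, (h =ᵐ[μ] fun x => ∫ t, f t * g (x - t) ∂μ) → h ∈ A)
    (f : L1) (hf : f ∈ A) (hQ : ∀ n ∉ QQ, co n f = 0) :
    f ∈ closure (Submodule.span ℂ
      {e : L1 | e ∈ A ∧ e =ᵐ[μ] fun x => ∫ t, e t * e (x - t) ∂μ} : Set L1) := by
  have hc' : ∀ f ∈ A, ∀ g ∈ A, ∃ h ∈ A, ∀ n, co n h = co n f * co n g := by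
    intro f hf g hg
    obtain ⟨h, h1, h2⟩ := exists_conv' f g
    exact ⟨h, hc f hf g hg h h1, h2⟩
  have H : ∀ F : Finset ℤ, ∑ n ∈ F, ‖co n f‖ ^ 2 ≤ (46 * ‖f‖ + 1) ^ 2 := fun F =>
    (l2_bound f hQ F).trans (by nlinarith [norm_nonneg f])
  have hs : Summable fun n => ‖co n f‖ ^ 2 := summable_of_sum_le (fun _ => sq_nonneg _) H
  have hid : ∀ l : ℂ, ∃ e ∈ A, l ≠ 0 → ∀ n, co n e = if co n f = l then 1 else 0 := by
    intro l
    by_cases hl : l = 0
    · exact ⟨0, A.zero_mem, fun h => absurd hl h⟩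
    · obtain ⟨e, he, h⟩ := idem A hA hc' f hf (by positivity) H l hl
      exact ⟨e, he, fun _ => h⟩
  choose e he ce using hid
  rw [Metric.mem_closure_iff]
  intro ε hε
  obtain ⟨G, hG⟩ := summable_iff_vanishing_norm.1 hs ((ε / 2) ^ 2) (by positivity)
  obtain ⟨V, hV⟩ : ∃ V : Finset ℂ, V = (G.image fun n => co n f).erase 0 := ⟨_, rfl⟩
  have V0 : ∀ l ∈ V, l ≠ 0 := fun l hl => Finset.ne_of_mem_erase (hV ▸ hl)
  refine ⟨∑ l ∈ V, l • e l, Submodule.sum_mem _ fun l hl => Submodule.smul_mem _ _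
    (Submodule.subset_span ⟨he l, ?_⟩), ?_⟩
  · obtain ⟨h, h1, h2⟩ := exists_conv' (e l) (e l)
    have : h = e l := uniq _ _ fun n => by
      rw [h2, ce l (V0 l hl)]; split_ifs <;> simp
    rwa [this] at h1
  rw [dist_eq_norm]
  refine (norm_le_l2 _ (half_pos hε) fun F => ?_).trans_lt (half_lt_self hε)
  have c : ∀ n, co n (f - ∑ l ∈ V, l • e l) = if co n f ∈ V then 0 else co n f := by
    intro n
    rw [map_sub, map_sum, Finset.sum_congr rfl (g := fun l => if co n f = l then l else 0)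
      fun l hl => by rw [map_smul, ce l (V0 l hl)]; split_ifs <;> simp, Finset.sum_ite_eq]
    split_ifs <;> simp
  have := hG (F \ G) Finset.sdiff_disjoint
  refine le_trans ?_ ((le_abs_self _).trans this.le)
  rw [← Finset.sum_subset (Finset.sdiff_subset (s := F) (t := G))]
  · refine Finset.sum_le_sum fun n _ => ?_
    rw [c]; split_ifs <;> simp
  · intro n h1 h2
    have hn : n ∈ G := by simpa [h1] using h2
    rw [c]
    split_ifs with h
    · simp
    · have : co n f = 0 := by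
        by_contra h0
        exact h (hV ▸ Finset.mem_erase.2 ⟨h0, Finset.mem_image_of_mem _ hn⟩)
      simp [this]

end Pool.Agent.H.MP_535799_an
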